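import Pool.Agent.Y5.D.Stm

/-!
Assembly of `S_BLOW` (Navier-Stokes with additional linear dissipation, plan of helper5).
-/

open Set Filter Topology MeasureTheory

set_option autoImplicit false

namespace Pool.Agent.Y562.ND

open Pool.Agent.Y5.D

theorem ASol.mono {I : Type} {d κ : I → ℝ} {c : I → I → I → ℝ} {T T' : ℝ} {z : I → ℝ → ℝ}
    (h : ASol d κ c T z) (hT : T' ≤ T) : ASol d κ c T' z where
  deriv := fun i t ht => (h.deriv i t ⟨ht.1, lt_of_lt_of_le ht.2 hT⟩).mono
    (Ico_subset_Ico_right hT)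
  bdd := fun T'' hT'' => h.bdd T'' (lt_of_lt_of_le hT'' hT)

theorem L_ge_one {lm L C ℓ M : ℕ → ℝ} {B : ℕ → ℕ → ℝ} (h : Seq lm L C ℓ M B) (n : ℕ) :
    1 ≤ L n := by
  induction n with
  | zero => exact h.L0
  | succ n ih =>
    rw [← h.lm_succ n]
    have h1 : (1 : ℝ) ≤ lm (n + 1) := le_trans (by norm_num) (h.lm_big (n + 1))
    nlinarith

theorem L_mono {lm L C ℓ M : ℕ → ℝ} {B : ℕ → ℕ → ℝ} (h : Seq lm L C ℓ M B) : Monotone L := by
  apply monotone_nat_of_le_succ
  intro n
  rw [← h.lm_succ n]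
  have h1 : (1 : ℝ) ≤ lm (n + 1) := le_trans (by norm_num) (h.lm_big (n + 1))
  have h2 := L_ge_one h n
  nlinarith

/-- the initial datum -/
noncomputable def dat (J : Type) : Ix J → ℝ
  | Sum.inl 0 => 1
  | Sum.inl (_ + 1) => 0
  | Sum.inr _ => 0

theorem init_of {J : Type} {z : Ix J → ℝ → ℝ} (h : ∀ i, z i 0 = dat J i) : Init z :=
  ⟨h _, fun _ => h _, fun _ => h _⟩

theorem init_eq {J : Type} {z z' : Ix J → ℝ → ℝ} (h : Init z) (h' : Init z') (i : Ix J) :
    z i 0 = z' i 0 := by
  rcases i with n | w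
  · cases n with
    | zero => rw [h.1, h'.1]
    | succ n => rw [h.2.1, h'.2.1]
  · rw [h.2.2, h'.2.2]

theorem t_BLOWA : S_ABS → S_HK → S_PERT → S_ODE3 → S_BLOW := by
  intro hABS hHK hPERT hODE J g lm L C ℓ M B c S₁ hK hS
  obtain ⟨φ, hφ, T₁, hT₁, hode⟩ := hODE lm L C ℓ M B hS
  obtain ⟨Sa, hSa⟩ := hHK J g lm L C ℓ M B c hK hS
  obtain ⟨Sb, hSb⟩ := hPERT J g lm L C ℓ M B c φ hK hS hφ
  set S : ℕ → ℝ := fun n => max (S₁ n) (max (Sa n) (max (Sb n) (max (M n) 1))) with hSdef
  have s1 : ∀ n, S₁ n ≤ S n := fun n => le_max_left _ _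
  have s2 : ∀ n, Sa n ≤ S n := fun n => le_trans (le_max_left _ _) (le_max_right _ _)
  have s3 : ∀ n, Sb n ≤ S n := fun n =>
    le_trans (le_trans (le_max_left _ _) (le_max_right _ _)) (le_max_right _ _)
  have s4 : ∀ n, M n ≤ S n := fun n =>
    le_trans (le_trans (le_trans (le_max_left _ _) (le_max_right _ _)) (le_max_right _ _))
      (le_max_right _ _)
  have s5 : ∀ n, 1 ≤ S n := fun n =>
    le_trans (le_trans (le_trans (le_max_right _ _) (le_max_right _ _)) (le_max_right _ _))
      (le_max_right _ _)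
  have hL1 : ∀ n, 1 ≤ L n := L_ge_one hS
  have hker := hSa S s2 s5
  have hpert := hSb S s3 s5
  clear_value S
  have hd : ∀ i : Ix J, 0 ≤ dI ℓ S g i := by
    rintro (n | w)
    · exact hS.ℓ_nonneg n
    · exact pow_nonneg (le_trans zero_le_one (s5 _)) 4
  have hκ : ∀ i : Ix J, 1 ≤ κI L S g i := by
    rintro (n | w)
    · exact one_le_pow₀ (hL1 n)
    · exact s5 _
  have hr : ∀ i : Ix J, 1 ≤ rI L g i := fun i => hL1 _
  obtain ⟨huniq, hex⟩ := hABS (Ix J) (dI ℓ S g) (κI L S g) (rI L g) c hd hκ hr hker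
  obtain ⟨z, hz0, hz⟩ := hex (dat J) (by
    intro k
    refine ⟨rI L g (Sum.inl 0 : Ix J) ^ k * κI L S g (Sum.inl 0 : Ix J), ?_⟩
    have hpos : 0 ≤ rI L g (Sum.inl 0 : Ix J) ^ k * κI L S g (Sum.inl 0 : Ix J) :=
      mul_nonneg (pow_nonneg (le_trans zero_le_one (hr _)) _) (le_trans zero_le_one (hκ _))
    rintro (n | w)
    · cases n with
      | zero => simp [dat]
      | succ n => simpa [dat] using hpos
    · simpa [dat] using hpos)
  have hinit : Init z := init_of hz0
  -- consequences of a solution on `[0, T)`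
  have hcons : ∀ T : ℝ, 0 < T → ASol (dI ℓ S g) (κI L S g) c T z →
      T ≤ T₁ ∧
      ((∀ n, ∃ t ∈ Ico 0 T, (8 / 1000) ^ n ≤ z (Sum.inl n) t ∧
        ∀ m, n < m → |z (Sum.inl m) t| ≤ Real.exp (-(lm (m - 1) / 200))) ∨
      ∃ n₀, ∀ t ∈ Ico 0 T, ∀ m, n₀ ≤ m →
        |z (Sum.inl m) t| ≤ Real.exp (-(lm (m - 1) / 200))) := by
    intro T hT hsol
    obtain ⟨p1, p2, p3, f, p4, p5⟩ := hpert T z hsol hinit
    refine hode T (fun n => z (Sum.inl n)) f hT p4 ?_ ?_ p5 hinit.1 hinit.2.1
    · intro T' hT'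
      obtain ⟨Mx, hMx⟩ := hsol.bdd T' hT'
      exact ⟨Mx, fun t ht n => hMx t ht (Sum.inl n)⟩
    · intro t ht
      obtain ⟨q1, q2⟩ := p1 t ht
      refine le_trans ?_ q2
      exact (q1.comp_injective Sum.inl_injective).tsum_le_tsum_of_inj Sum.inl
        Sum.inl_injective (fun a _ => sq_nonneg _) (fun a => le_rfl) q1
  rcases hz with hz | ⟨T, hT, hsol, hbd, hnb⟩
  · exfalso
    have := (hcons (T₁ + 1) (by linarith) (hz _)).1
    linarith
  · obtain ⟨p1, p2, p3, -⟩ := hpert T z hsol hinit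
    refine ⟨S, s1, s5, T, z, hT, hsol, hinit, hbd, ?_, p1, p2, p3, ?_⟩
    · -- uniqueness and maximality
      intro T' z' hT' hsol' hinit'
      rcases le_or_gt T' T with h | h
      · exact ⟨h, huniq T' z' z hsol' (ASol.mono hsol h) (init_eq hinit' hinit)⟩
      · exfalso
        have heq := huniq T z' z (ASol.mono hsol' h.le) hsol (init_eq hinit' hinit)
        obtain ⟨Mb, hMb⟩ := hsol'.bdd T h
        refine hnb ⟨Mb, fun t ht i => ?_⟩
        rw [← heq i t ht]
        exact hMb t (Ico_subset_Icc_self ht) i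
    · rcases (hcons T hT hsol).2 with h | ⟨n₀, hn₀⟩
      · exact h
      · exfalso
        apply hnb
        refine ⟨1 + ∑ m ∈ Finset.range (n₀ + 1), L m ^ 10, ?_⟩
        have hsum : 0 ≤ ∑ m ∈ Finset.range (n₀ + 1), L m ^ 10 :=
          Finset.sum_nonneg (fun m _ => pow_nonneg (le_trans zero_le_one (hL1 m)) _)
        intro t ht i
        obtain ⟨q1, q2⟩ := p1 t ht
        rcases i with m | w
        · show L m ^ 10 * |z (Sum.inl m) t| ≤ _
          rcases lt_or_ge n₀ m with hm | hm
          · obtain ⟨m, rfl⟩ : ∃ k, m = k + 1 := ⟨m - 1, by omega⟩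
            have e1 := hn₀ t ht (m + 1) hm.le
            rw [Nat.add_sub_cancel] at e1
            have e2 : L (m + 1) ^ 10 ≤ Real.exp (lm m / 10 ^ 6) := by
              refine le_trans (pow_le_pow_left₀ (le_trans zero_le_one (hL1 _)) ?_ 10)
                (hS.exp_big m)
              have a1 : L (m + 1) ≤ L (m + 5) := L_mono hS (by omega)
              have a2 := hS.M_one (m + 5)
              have a3 := hL1 (m + 5)
              nlinarith
            have e3 : Real.exp (lm m / 10 ^ 6) * Real.exp (-(lm m / 200)) ≤ 1 := by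
              rw [← Real.exp_add, Real.exp_le_one_iff]
              have := hS.lm_big m
              have : (0 : ℝ) ≤ lm m := le_trans (by norm_num) this
              norm_num
              linarith
            have e4 : L (m + 1) ^ 10 * |z (Sum.inl (m + 1)) t| ≤
                Real.exp (lm m / 10 ^ 6) * Real.exp (-(lm m / 200)) :=
              mul_le_mul e2 e1 (abs_nonneg _) (Real.exp_pos _).le
            linarith
          · have e1 : |z (Sum.inl m) t| ≤ 1 := by
              have e2 : z (Sum.inl m) t ^ 2 ≤ 1 :=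
                le_trans (q1.le_tsum (Sum.inl m) (fun _ _ => sq_nonneg _)) q2
              exact abs_le_one_iff_mul_self_le_one.2 (by nlinarith)
            have e2 : L m ^ 10 ≤ ∑ m ∈ Finset.range (n₀ + 1), L m ^ 10 :=
              Finset.single_le_sum (f := fun m => L m ^ 10)
                (fun m _ => pow_nonneg (le_trans zero_le_one (hL1 m)) _)
                (Finset.mem_range.2 (by omega))
            have e3 : 0 ≤ L m ^ 10 := pow_nonneg (le_trans zero_le_one (hL1 m)) _
            have e4 : L m ^ 10 * |z (Sum.inl m) t| ≤ L m ^ 10 * 1 :=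
              mul_le_mul_of_nonneg_left e1 e3
            linarith
        · show S (g w) * |z (Sum.inr w) t| ≤ _
          have e1 := p3 w t ht
          have e2 := s4 (g w)
          have e3 := s5 (g w)
          have e4 := hS.M_one (g w)
          have e5 : S (g w) * |z (Sum.inr w) t| ≤ S (g w) * (M (g w) ^ 2 / S (g w) ^ 4) :=
            mul_le_mul_of_nonneg_left e1 (by linarith)
          have e6 : S (g w) * (M (g w) ^ 2 / S (g w) ^ 4) ≤ 1 := by
            rw [mul_div_assoc', div_le_one (by positivity)]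
            have a1 : M (g w) ^ 2 ≤ S (g w) ^ 2 := pow_le_pow_left₀ (by linarith) e2 2
            have a2 : S (g w) * S (g w) ^ 2 ≤ S (g w) ^ 4 := by
              have : S (g w) ^ 4 = S (g w) * S (g w) ^ 2 * S (g w) := by ring
              rw [this]
              exact le_mul_of_one_le_right (by positivity) e3
            calc S (g w) * M (g w) ^ 2 ≤ S (g w) * S (g w) ^ 2 :=
                  mul_le_mul_of_nonneg_left a1 (by linarith)
              _ ≤ S (g w) ^ 4 := a2
          linarith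

end Pool.Agent.Y562.ND
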